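import Pool.Agent.H21.GH.Mot
import Pool.Graph.R_pool_sql_team_seeded_2aa45f1a.Q193.LT.Add
import Pool.Graph.R_pool_sql_team_seeded_2aa45f1a.Q148.LI.Frob

/-!
# Jordan blocks of Frobenius on weight complexes
-/

set_option autoImplicit false

open CategoryTheory AlgebraicGeometry Pool.Agent.Y116.UV Pool.Agent.Z125.UN
  Pool.Agent.Q193.LT Pool.Agent.Q148.LI Pool.Agent.H21.GH Polynomial

namespace Pool.Agent.H26.FS

variable {k : Type} [Field k] {E : Type} [Field E]

/-- A module over `E[F]` is a vector space over `E`. -/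
noncomputable instance vectorSpace (V : FMod E) : Module E V := Module.compHom V (C : E →+* E[X])

instance (V : FMod E) : IsScalarTower E E[X] V where
  smul_assoc c p v := by
    rw [Polynomial.smul_eq_C_mul, mul_smul]
    rfl

/-- The kernel of `(F - α) ^ s` on `V`, as a subspace over `E`. -/
noncomputable def kerF (α : E) (s : ℕ) (V : FMod E) : Submodule E V :=
  (Submodule.torsionBy E[X] V (shiftF α ^ s)).restrictScalars E

/-- The sum of the eigenspaces of `F` with the eigenvalues in `S`. Its dimension is the number of the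
Jordan blocks of `F` with the eigenvalues in `S`. -/
noncomputable def eigF (S : Set E) (V : FMod E) : Submodule E V := ⨆ α : S, kerF (α : E) 1 V

/-- The sum of the generalized eigenspaces of `F` with the eigenvalues in `S`. -/
noncomputable def genF (S : Set E) (V : FMod E) : Submodule E V :=
  ⨆ α : S, ⨆ s : ℕ, kerF (α : E) s V

/-- A function on the modules over `E[F]` that is additive for direct sums of finite dimensional
modules. -/
structure IsAdditive (φ : FMod E → ℤ) : Prop where
  iso : ∀ {V W : FMod E}, Nonempty (V ≅ W) → φ V = φ W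
  sum : ∀ V W : FMod E, Module.Finite E V → Module.Finite E W →
    φ (ModuleCat.of E[X] (V × W)) = φ V + φ W

/-- The Euler characteristic `∑_j (-1)^j φ (T w j X)`. -/
noncomputable def chi (T : ℤ → ℤ → Sch k → FMod E) (φ : FMod E → ℤ) (w : ℤ) (X : Sch k) : ℤ :=
  ∑ᶠ j : ℤ, (-1) ^ j.natAbs * φ (T w j X)

/-- What is used about the modules `T w j X = H^w(W_j(X))`, `W(X)` the weight complex of `X`. -/
structure IsComplexes (T : ℤ → ℤ → Sch k → FMod E) (H : ℤ → Sch k → FMod E) (q : ℕ) : Prop where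
  finite : ∀ X : Sch k, FT True X → ∀ w j, Module.Finite E (T w j X)
  bounded : ∀ X : Sch k, FT True X → ∃ N : ℕ, ∀ j : ℤ, N < j.natAbs → ∀ w, Subsingleton (T w j X)
  factor : ∀ X : Sch k, FT True X → ∀ w j, ∃ Y : Sch k, SmoothProj Y ∧
    ∃ (i : T w j X ⟶ H w Y) (r : H w Y ⟶ T w j X), i ≫ r = 𝟙 _
  smooth : ∀ Y : Sch k, SmoothProj Y → ∀ w, Nonempty (T w 0 Y ≅ H w Y) ∧
    ∀ j : ℤ, j ≠ 0 → Subsingleton (T w j Y)
  neg : ∀ X : Sch k, FT True X → ∀ w : ℤ, w < 0 → ∀ j, Subsingleton (T w j X)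
  iso : ∀ {X Y : Sch k}, FT True X → Nonempty (X ≅ Y) → ∀ φ : FMod E → ℤ, IsAdditive φ → ∀ w,
    chi T φ w X = chi T φ w Y
  triple : ∀ {Z X U : Sch k} (i : Z ⟶ X) (j : U ⟶ X), FT True X → IsTriple i j →
    ∀ φ : FMod E → ℤ, IsAdditive φ → ∀ w, chi T φ w X = chi T φ w Z + chi T φ w U
  bundle : ∀ (B : Type) [CommRing B] [Algebra k B] [Algebra.FiniteType k B] (r : ℕ)
    (f : Fin r → B) (U : Sch k) (j : U ⟶ aff k B), IsOpenImmersion j.left →
    Set.range j.left = {x : PrimeSpectrum B | ∃ l, f l ∉ x.asIdeal} →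
    ∀ φ φ' : FMod E → ℤ, IsAdditive φ → IsAdditive φ' →
    (∀ V' V : FMod E, FTwist q (1 - r) V' V → φ V' = φ' V) →
    ∀ w, chi T φ w (aff k (Jou f)) = chi T φ' (w + 2 * (1 - r)) U
  torus : ∀ (B : Type) [CommRing B] [Algebra k B] [Algebra.FiniteType k B]
    (φ φ' : FMod E → ℤ), IsAdditive φ → IsAdditive φ' →
    (∀ V' V : FMod E, FTwist q (-1) V' V → φ V' = φ' V) →
    ∀ w, chi T φ w (aff k (LaurentPolynomial B)) =
      chi T φ' (w - 2) (aff k B) - chi T φ w (aff k B)

/-! ### Linear algebra -/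

/-- The dimension of the kernel of `(F - α) ^ s`. -/
noncomputable def kdim (α : E) (s : ℕ) (V : FMod E) : ℤ := Module.finrank E (kerF α s V)

/-- The dimension of `eigF S V`: the number of Jordan blocks with eigenvalues in `S`. -/
noncomputable def blocks (S : Set E) (V : FMod E) : ℤ := Module.finrank E (eigF S V)

/-- The dimension of `genF S V`: the number of eigenvalues in `S`, with multiplicities. -/
noncomputable def mult (S : Set E) (V : FMod E) : ℤ := Module.finrank E (genF S V)

lemma mem_kerF {α : E} {s : ℕ} {V : FMod E} {v : V} :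
    v ∈ kerF α s V ↔ shiftF α ^ s • v = 0 := by
  rw [kerF, Submodule.restrictScalars_mem, Submodule.mem_torsionBy_iff]

/-- A subspace of every module which is compatible with all linear maps. -/
structure Natl (P : ∀ V : FMod E, Submodule E V) : Prop where
  map : ∀ {V W : FMod E} (f : V →ₗ[E[X]] W) (v : V), v ∈ P V → f v ∈ P W

lemma natl_ker (α : E) (s : ℕ) : Natl (kerF α s) where
  map f v hv := by
    rw [mem_kerF] at hv ⊢
    rw [← map_smul, hv, map_zero]

lemma natl_iSup {ι : Type} {P : ι → ∀ V : FMod E, Submodule E V} (h : ∀ i, Natl (P i)) :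
    Natl fun V => ⨆ i, P i V where
  map {V W} f v hv := by
    have h1 : (⨆ i, P i V).map (f.restrictScalars E) ≤ ⨆ i, P i W := by
      rw [Submodule.map_iSup]
      refine iSup_mono fun i => ?_
      rintro _ ⟨x, hx, rfl⟩
      exact (h i).map f x hx
    exact h1 ⟨v, hv, rfl⟩

lemma natl_eig (S : Set E) : Natl (eigF S) := natl_iSup fun α : S => natl_ker (α : E) 1

lemma natl_gen (S : Set E) : Natl (genF S) :=
  natl_iSup fun α : S => natl_iSup fun s : ℕ => natl_ker (α : E) s

lemma Natl.equiv {P : ∀ V : FMod E, Submodule E V} (h : Natl P) {V W : FMod E} (e : V ≅ W) :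
    Module.finrank E (P V) = Module.finrank E (P W) := by
  let e' : V ≃ₗ[E[X]] W := e.toLinearEquiv
  have h1 : (P V).map (e'.restrictScalars E).toLinearMap = P W := by
    ext w
    rw [Submodule.mem_map]
    constructor
    · rintro ⟨v, hv, rfl⟩
      exact h.map e'.toLinearMap v hv
    · intro hw
      exact ⟨e'.symm w, h.map e'.symm.toLinearMap w hw, e'.apply_symm_apply w⟩
  rw [← h1]
  exact ((e'.restrictScalars E).submoduleMap (P V)).finrank_eq

lemma Natl.additive {P : ∀ V : FMod E, Submodule E V} (h : Natl P) :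
    IsAdditive fun V => (Module.finrank E (P V) : ℤ) where
  iso e := by
    obtain ⟨e⟩ := e
    exact_mod_cast h.equiv e
  sum V W hV hW := by
    let e : P (ModuleCat.of E[X] (V × W)) ≃ₗ[E] P V × P W :=
      { toFun := fun x => (⟨x.1.1, h.map (LinearMap.fst E[X] V W) x.1 x.2⟩,
          ⟨x.1.2, h.map (LinearMap.snd E[X] V W) x.1 x.2⟩)
        map_add' := fun _ _ => rfl
        map_smul' := fun _ _ => rfl
        invFun := fun x => ⟨((x.1 : V), (x.2 : W)), by
          have h1 := h.map (V := V) (W := ModuleCat.of E[X] (V × W)) (LinearMap.inl E[X] V W) x.1 x.1.2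
          have h2 := h.map (V := W) (W := ModuleCat.of E[X] (V × W)) (LinearMap.inr E[X] V W) x.2 x.2.2
          have h3 := (P (ModuleCat.of E[X] (V × W))).add_mem h1 h2
          have h4 : (LinearMap.inl E[X] V W (x.1 : V) + LinearMap.inr E[X] V W (x.2 : W) : V × W) =
              ((x.1 : V), (x.2 : W)) := by simp
          exact h4 ▸ h3⟩
        left_inv := fun _ => rfl
        right_inv := fun _ => rfl }
    have h1 := e.finrank_eq
    rw [Module.finrank_prod] at h1
    exact_mod_cast h1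

lemma additive_kdim (α : E) (s : ℕ) : IsAdditive (kdim α s) := (natl_ker α s).additive

lemma additive_blocks (S : Set E) : IsAdditive (blocks S) := (natl_eig S).additive

lemma additive_mult (S : Set E) : IsAdditive (mult S) := (natl_gen S).additive

/-! ### Twists -/

section twist

variable {q : ℕ} {S : Set E}

lemma ker_twist {a : ℤ} {V' V : FMod E} (hq : (q : E) ≠ 0) (h : FTwist q a V' V) :
    ∃ e : V' ≃ₗ[E] V, ∀ (α : E) (s : ℕ) (x : V'), x ∈ kerF α s V' ↔ e x ∈ kerF ((q : E) ^ a * α) s V := by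
  obtain ⟨e, h1, h2⟩ := h
  have he := e_shift hq e h1 h2
  have hs : ∀ (α : E) (s : ℕ) (x : V'), e (shiftF α ^ s • x) =
      C ((q : E) ^ (-a)) ^ s • shiftF ((q : E) ^ a * α) ^ s • e x := by
    intro α s
    induction s with
    | zero => intro x; simp
    | succ n ih =>
      intro x
      rw [pow_succ, mul_smul, ih, he, pow_succ (C _), pow_succ (shiftF _), mul_smul, mul_smul,
        smul_comm (shiftF ((q : E) ^ a * α) ^ n) (C ((q : E) ^ (-a)))]
  refine ⟨{ e with map_smul' := fun c x => h1 c x }, fun α s x => ?_⟩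
  change x ∈ kerF α s V' ↔ e x ∈ kerF ((q : E) ^ a * α) s V
  rw [mem_kerF, mem_kerF]
  have h3 : C ((q : E) ^ a) ^ s * C ((q : E) ^ (-a)) ^ s = (1 : E[X]) := by
    rw [← mul_pow, ← C_mul, ← zpow_add₀ hq, add_neg_cancel, zpow_zero, C_1, one_pow]
  constructor
  · intro hx
    have h4 := hs α s x
    rw [hx, map_zero] at h4
    have h5 := congrArg (fun y => C ((q : E) ^ a) ^ s • y) h4
    simp only [smul_zero] at h5
    rw [← mul_smul, h3, one_smul] at h5
    exact h5.symm
  · intro hx
    apply e.injective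
    rw [hs, hx, smul_zero, map_zero]

lemma kdim_twist {a : ℤ} {V' V : FMod E} (hq : (q : E) ≠ 0) (h : FTwist q a V' V) (α : E) (s : ℕ) :
    kdim α s V' = kdim ((q : E) ^ a * α) s V := by
  obtain ⟨e, he⟩ := ker_twist hq h
  have h1 : (kerF α s V').map e.toLinearMap = kerF ((q : E) ^ a * α) s V := by
    ext w
    rw [Submodule.mem_map]
    constructor
    · rintro ⟨v, hv, rfl⟩
      exact (he α s v).mp hv
    · intro hw
      refine ⟨e.symm w, (he α s _).mpr ?_, e.apply_symm_apply w⟩
      rwa [e.apply_symm_apply]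
  unfold kdim
  rw [← h1]
  exact_mod_cast (e.submoduleMap (kerF α s V')).finrank_eq

lemma sup_twist {ι : Type} {a : ℤ} {V' V : FMod E} (hq : (q : E) ≠ 0) (hS : Stable q S)
    (h : FTwist q a V' V) (s : ι → ℕ) :
    Module.finrank E (⨆ α : S, ⨆ i, kerF (α : E) (s i) V' : Submodule E V') =
      Module.finrank E (⨆ α : S, ⨆ i, kerF (α : E) (s i) V : Submodule E V) := by
  obtain ⟨e, he⟩ := ker_twist hq h
  have h1 : (⨆ α : S, ⨆ i, kerF (α : E) (s i) V' : Submodule E V').map e.toLinearMap =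
      ⨆ α : S, ⨆ i, kerF (α : E) (s i) V := by
    apply le_antisymm
    · rw [Submodule.map_iSup]
      refine iSup_le fun α => ?_
      rw [Submodule.map_iSup]
      refine iSup_le fun i => ?_
      refine le_trans ?_ (le_iSup (fun α : S => ⨆ i, kerF (α : E) (s i) V)
        ⟨(q : E) ^ a * α, hS α α.2 a⟩)
      refine le_trans ?_ (le_iSup _ i)
      rintro _ ⟨x, hx, rfl⟩
      exact (he _ _ _).mp hx
    · refine iSup_le fun α => iSup_le fun i => ?_
      intro w hw
      have h3 : (q : E) ^ a * ((q : E) ^ (-a) * α) = α := by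
        rw [← mul_assoc, ← zpow_add₀ hq, add_neg_cancel, zpow_zero, one_mul]
      have h4 : e.symm w ∈ kerF ((q : E) ^ (-a) * α) (s i) V' := by
        rw [he, h3, e.apply_symm_apply]
        exact hw
      refine ⟨e.symm w, ?_, e.apply_symm_apply w⟩
      have h5 : kerF ((q : E) ^ (-a) * α) (s i) V' ≤ ⨆ i, kerF ((q : E) ^ (-a) * α) (s i) V' :=
        le_iSup (fun i => kerF ((q : E) ^ (-a) * α) (s i) V') i
      have h6 := le_iSup (fun α : S => ⨆ i, kerF (α : E) (s i) V')
        ⟨(q : E) ^ (-a) * α, hS α α.2 (-a)⟩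
      exact h6 (h5 h4)
  rw [← h1]
  exact (e.submoduleMap _).finrank_eq

lemma mult_twist {a : ℤ} {V' V : FMod E} (hq : (q : E) ≠ 0) (hS : Stable q S)
    (h : FTwist q a V' V) : mult S V' = mult S V := by
  unfold mult genF
  exact_mod_cast sup_twist hq hS h (fun n : ℕ => n)

lemma eigF_eq (S : Set E) (V : FMod E) : eigF S V = ⨆ α : S, ⨆ _ : Unit, kerF (α : E) 1 V := by
  unfold eigF
  congr 1
  funext α
  exact iSup_const.symm

lemma blocks_twist {a : ℤ} {V' V : FMod E} (hq : (q : E) ≠ 0) (hS : Stable q S)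
    (h : FTwist q a V' V) : blocks S V' = blocks S V := by
  unfold blocks
  rw [eigF_eq, eigF_eq]
  exact_mod_cast sup_twist hq hS h (fun _ : Unit => 1)

end twist

/-! ### Jordan blocks -/

/-- if there is no Jordan block of size two, all kernels of powers are equal -/
lemma ker_eq {S : Set E} {V : FMod E} (h : NoBlock S V) {α : E} (hα : α ∈ S) (s : ℕ) :
    kerF α (s + 1) V = kerF α 1 V := by
  have h1 : ∀ (n : ℕ) (v : V), shiftF α ^ (n + 1) • v = 0 → shiftF α • v = 0 := by
    intro n
    induction n with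
    | zero =>
      intro v hv
      rwa [zero_add, pow_one] at hv
    | succ n ih =>
      intro v hv
      apply ih
      rw [pow_succ', mul_smul]
      apply h α hα
      rw [← mul_smul, show shiftF α ^ 2 * shiftF α ^ n = shiftF α ^ (n + 1 + 1) by ring]
      exact hv
  ext v
  rw [mem_kerF, mem_kerF, pow_one]
  constructor
  · intro hv
    exact h1 s v hv
  · intro hv
    rw [pow_succ, mul_smul, hv, smul_zero]

lemma kdim_eq {S : Set E} {V : FMod E} (h : NoBlock S V) {α : E} (hα : α ∈ S) {s : ℕ} (hs : 1 ≤ s) :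
    kdim α s V = kdim α 1 V := by
  obtain ⟨n, rfl⟩ := Nat.exists_eq_add_of_le' hs
  rw [kdim, kdim, ker_eq h hα]

lemma mult_eq {S : Set E} {V : FMod E} (h : NoBlock S V) : mult S V = blocks S V := by
  have h1 : genF S V = eigF S V := by
    apply le_antisymm
    · refine iSup_le fun α => iSup_le fun s => ?_
      cases s with
      | zero =>
        intro v hv
        rw [mem_kerF, pow_zero, one_smul] at hv
        rw [hv]
        exact Submodule.zero_mem _
      | succ n =>
        rw [ker_eq h α.2]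
        exact le_iSup (fun α : S => kerF (α : E) 1 V) α
    · refine iSup_le fun α => ?_
      exact le_trans (le_iSup (fun s : ℕ => kerF (α : E) s V) 1)
        (le_iSup (fun α : S => ⨆ s : ℕ, kerF (α : E) s V) α)
  rw [mult, blocks, h1]

lemma noBlock_of_kdim {V : FMod E} (hV : Module.Finite E V) {α : E} {s : ℕ} (hs : 2 ≤ s)
    (h : kdim α s V = kdim α 1 V) {v : V} (hv : shiftF α ^ 2 • v = 0) : shiftF α • v = 0 := by
  have h1 : kerF α 1 V ≤ kerF α s V := by
    intro v hv
    rw [mem_kerF, pow_one] at hv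
    rw [mem_kerF]
    obtain ⟨n, rfl⟩ := Nat.exists_eq_add_of_le' hs
    rw [pow_add, pow_two, mul_smul, mul_smul, hv, smul_zero, smul_zero]
  have h2 : kerF α 1 V = kerF α s V :=
    Submodule.eq_of_le_of_finrank_eq h1 (by unfold kdim at h; exact_mod_cast h.symm)
  have h3 : v ∈ kerF α s V := by
    rw [mem_kerF]
    obtain ⟨n, rfl⟩ := Nat.exists_eq_add_of_le' hs
    rw [pow_add, mul_smul, hv, smul_zero]
  rw [← h2, mem_kerF, pow_one] at h3
  exact h3

/-- multiplication by `F` -/
noncomputable def frobF (V : FMod E) : Module.End E V :=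
  (LinearMap.lsmul E[X] V (X : E[X])).restrictScalars E

lemma mem_eigenspace {α : E} {V : FMod E} {v : V} :
    v ∈ (frobF V).eigenspace α ↔ v ∈ kerF α 1 V := by
  rw [Module.End.mem_eigenspace_iff, mem_kerF, pow_one, shiftF, sub_smul, sub_eq_zero]
  rfl

lemma noBlock_of_mult {S : Set E} {V : FMod E} (hV : Module.Finite E V)
    (h : mult S V = blocks S V) : NoBlock S V := by
  have h1 : eigF S V ≤ genF S V := by
    refine iSup_le fun α => ?_
    exact le_trans (le_iSup (fun s : ℕ => kerF (α : E) s V) 1)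
      (le_iSup (fun α : S => ⨆ s : ℕ, kerF (α : E) s V) α)
  have h2 : eigF S V = genF S V :=
    Submodule.eq_of_le_of_finrank_eq h1 (by unfold mult blocks at h; exact_mod_cast h.symm)
  intro α hα v hv
  have h3 : v ∈ eigF S V := by
    rw [h2]
    have h4 : kerF α 2 V ≤ genF S V :=
      le_trans (le_iSup (fun s : ℕ => kerF α s V) 2)
        (le_iSup (fun α : S => ⨆ s : ℕ, kerF (α : E) s V) ⟨α, hα⟩)
    exact h4 (mem_kerF.mpr hv)
  let g : V →ₗ[E] V := (LinearMap.lsmul E[X] V (shiftF α)).restrictScalars E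
  have h5 : (eigF S V).map g ≤ ⨆ β : E, ⨆ _ : β ≠ α, (frobF V).eigenspace β := by
    rw [eigF, Submodule.map_iSup]
    refine iSup_le fun β => ?_
    rintro _ ⟨x, hx, rfl⟩
    have hx' : x ∈ kerF (β : E) 1 V := hx
    by_cases hβ : (β : E) = α
    · have h6 : g x = 0 := by
        rw [hβ, mem_kerF, pow_one] at hx'
        exact hx'
      rw [h6]
      exact Submodule.zero_mem _
    · have h6 : g x ∈ (frobF V).eigenspace (β : E) := by
        rw [mem_eigenspace]
        exact (natl_ker (β : E) 1).map (LinearMap.lsmul E[X] V (shiftF α)) x hx'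
      have h7 : (frobF V).eigenspace (β : E) ≤ ⨆ β : E, ⨆ _ : β ≠ α, (frobF V).eigenspace β :=
        le_iSup_of_le (β : E) (le_iSup_of_le hβ le_rfl)
      exact h7 h6
  have h6 : g v ∈ ⨆ β : E, ⨆ _ : β ≠ α, (frobF V).eigenspace β := h5 ⟨v, h3, rfl⟩
  have h7 : g v ∈ (frobF V).eigenspace α := by
    rw [mem_eigenspace, mem_kerF, pow_one]
    change shiftF α • shiftF α • v = 0
    rw [← mul_smul, ← pow_two, hv]
  have h8 := (Module.End.eigenspaces_iSupIndep (frobF V)) α
  exact (Submodule.disjoint_def.mp h8) _ h7 h6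

/-! ### Closure properties -/

lemma IsAdditive.zero {φ : FMod E → ℤ} (h : IsAdditive φ) {V : FMod E} (hV : Subsingleton V) :
    φ V = 0 := by
  have h1 : Nonempty (ModuleCat.of E[X] (V × V) ≅ V) := by
    refine ⟨LinearEquiv.toModuleIso ?_⟩
    exact { toFun := fun x => x.1, map_add' := fun _ _ => rfl, map_smul' := fun _ _ => rfl,
            invFun := fun x => (x, x), left_inv := fun _ => Subsingleton.elim _ _,
            right_inv := fun _ => Subsingleton.elim _ _ }
  have h2 : Module.Finite E V := Module.Finite.of_surjective (0 : E →ₗ[E] V) fun v => ⟨0, Subsingleton.elim _ _⟩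
  have h3 := h.sum V V h2 h2
  rw [h.iso h1] at h3
  omega

section

variable {T : ℤ → ℤ → Sch k → FMod E} {H : ℤ → Sch k → FMod E} {q : ℕ}

lemma chi_neg (hT : IsComplexes T H q) {φ : FMod E → ℤ} (hφ : IsAdditive φ) {X : Sch k}
    (hX : FT True X) {w : ℤ} (hw : w < 0) : chi T φ w X = 0 := by
  rw [chi]
  refine (finsum_congr fun j => ?_).trans finsum_zero
  rw [hφ.zero (hT.neg X hX w hw j), mul_zero]

lemma chi_smooth (hT : IsComplexes T H q) {φ : FMod E → ℤ} (hφ : IsAdditive φ) {Y : Sch k}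
    (hY : SmoothProj Y) (w : ℤ) : chi T φ w Y = φ (H w Y) := by
  obtain ⟨e, h1⟩ := hT.smooth Y hY w
  rw [chi, finsum_eq_single _ 0 fun j hj => by rw [hφ.zero (h1 j hj)]; simp, hφ.iso e]
  simp

lemma finite_smooth (hT : IsComplexes T H q) {Y : Sch k} (hY : SmoothProj Y) (w : ℤ) :
    Module.Finite E (H w Y) := by
  obtain ⟨⟨e⟩, _⟩ := hT.smooth Y hY w
  have h1 := hT.finite Y hY.ft w 0
  let e' : T w 0 Y ≃ₗ[E[X]] H w Y := e.toLinearEquiv
  exact Module.Finite.equiv (e'.restrictScalars E)

/-- A family of pairs of additive functions which is stable under Tate twists. -/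
structure Family (q : ℕ) (ι : Type) (E : Type) [Field E] where
  φ : ℤ → ι → FMod E → ℤ
  ψ : ℤ → ι → FMod E → ℤ
  hφ : ∀ m i, IsAdditive (φ m i)
  hψ : ∀ m i, IsAdditive (ψ m i)
  tφ : ∀ (a m : ℤ) (i : ι) (V' V : FMod E), FTwist q a V' V → φ m i V' = φ (m + a) i V
  tψ : ∀ (a m : ℤ) (i : ι) (V' V : FMod E), FTwist q a V' V → ψ m i V' = ψ (m + a) i V

/-- the Euler characteristics agree -/
def Agree {ι : Type} (T : ℤ → ℤ → Sch k → FMod E) (L : Family q ι E) (X : Sch k) : Prop :=
  ∀ (m : ℤ) (i : ι) (c : Fin 2),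
    chi T (L.φ m i) ((c : ℕ) + 2 * m) X = chi T (L.ψ m i) ((c : ℕ) + 2 * m) X

lemma bnd_agree {ι : Type} (hT : IsComplexes T H q) (L : Family q ι E)
    (h1 : Agree T L (aff k k)) : Bnd True (Agree (k := k) T L) := by
  let dif : ℤ → Sch k → ι × Fin 2 → ℤ := fun m X x =>
    chi T (L.φ m x.1) ((x.2 : ℕ) + 2 * m) X - chi T (L.ψ m x.1) ((x.2 : ℕ) + 2 * m) X
  let D' : AddData k (ι × Fin 2 → ℤ) := { fin := fun _ _ => True, e := dif }
  have h2 : ∀ X, Agree T L X ↔ InAll D' ⊥ X := fun X =>
    ⟨fun h m => ⟨trivial, AddSubgroup.mem_bot.mpr (funext fun x => sub_eq_zero.mpr (h m x.1 x.2))⟩,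
      fun h m i c => sub_eq_zero.mp (congrFun (AddSubgroup.mem_bot.mp (h m).2) (i, c))⟩
  have h3 : IsAdd D' :=
    { iso := fun hX e m => ⟨fun _ => trivial, by
        funext x
        change chi T _ _ _ - chi T _ _ _ = chi T _ _ _ - chi T _ _ _
        rw [hT.iso hX e _ (L.hφ _ _), hT.iso hX e _ (L.hψ _ _)]⟩
      triple := fun i j hX ht m =>
        { total := fun _ _ => trivial
          opened := fun _ _ => trivial
          closed := fun _ _ => trivial
          add := fun _ _ _ => by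
            funext x
            change chi T _ _ _ - chi T _ _ _ =
              (chi T _ _ _ - chi T _ _ _) + (chi T _ _ _ - chi T _ _ _)
            rw [hT.triple i j hX ht _ (L.hφ _ _), hT.triple i j hX ht _ (L.hψ _ _)]
            ring }
      bundle := fun B _ _ _ r f U j hj hr m => ⟨Iff.rfl, by
        funext x
        change chi T (L.φ m x.1) _ _ - chi T (L.ψ m x.1) _ _ =
          chi T (L.φ (m + (1 - r)) x.1) _ _ - chi T (L.ψ (m + (1 - r)) x.1) _ _
        rw [hT.bundle B r f U j hj hr _ _ (L.hφ m x.1) (L.hφ (m + (1 - r)) x.1)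
            (fun V' V h => L.tφ _ _ _ V' V h),
          hT.bundle B r f U j hj hr _ _ (L.hψ m x.1) (L.hψ (m + (1 - r)) x.1)
            (fun V' V h => L.tψ _ _ _ V' V h)]
        have h4 : (((x.2 : ℕ) : ℤ) + 2 * m) + 2 * (1 - r) = ((x.2 : ℕ) : ℤ) + 2 * (m + (1 - r)) := by
          ring
        rw [h4]⟩
      torus := fun B _ _ _ m => ⟨fun _ => trivial, by
        funext x
        change chi T (L.φ m x.1) _ _ - chi T (L.ψ m x.1) _ _ =
          (chi T (L.φ (m - 1) x.1) _ _ - chi T (L.ψ (m - 1) x.1) _ _) -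
            (chi T (L.φ m x.1) _ _ - chi T (L.ψ m x.1) _ _)
        rw [hT.torus B _ _ (L.hφ m x.1) (L.hφ (m - 1) x.1) (fun V' V h => L.tφ _ _ _ V' V h),
          hT.torus B _ _ (L.hψ m x.1) (L.hψ (m - 1) x.1) (fun V' V h => L.tψ _ _ _ V' V h)]
        have h4 : (((x.2 : ℕ) : ℤ) + 2 * m) - 2 = ((x.2 : ℕ) : ℤ) + 2 * (m - 1) := by
          ring
        rw [h4]
        ring⟩
      neg := fun B _ _ _ m hm => by
        funext x
        change chi T (L.φ m x.1) _ _ - chi T (L.ψ m x.1) _ _ = 0
        have h4 : ((x.2 : ℕ) : ℤ) + 2 * m < 0 := by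
          have := x.2.2
          omega
        rw [chi_neg hT (L.hφ _ _) (ft_aff True) h4, chi_neg hT (L.hψ _ _) (ft_aff True) h4,
          sub_zero] }
  have h4 := bnd_add (S := ⊥) h3 ((h2 _).mp h1)
  have h5 : Agree T L = InAll D' ⊥ := funext fun X => propext (h2 X)
  rw [h5]
  exact h4

/-- If the Euler characteristics agree for the graph hypersurfaces, then for all schemes. -/
lemma agree_universal {ι : Type} (hk : Frac k) (hT : IsComplexes T H q) (L : Family q ι E)
    (h : ∀ (n : ℕ) (G : SimpleGraph (Fin n)), Agree T L (kirS k G)) (X : Sch k) (hX : FT True X) :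
    Agree T L X := by
  have h2 : Agree T L (aff k k) := by
    intro m i c
    have h3 := h 1 ⊥ m i c
    rwa [hT.iso (ft_kirS _ True) (kirS_point k) _ (L.hφ _ _),
      hT.iso (ft_kirS _ True) (kirS_point k) _ (L.hψ _ _)] at h3
  exact universal hk (bnd_agree hT L h2) h X hX

/-- the kernels of powers -/
noncomputable def famKer (hq : (q : E) ≠ 0) (S : Set E) (s : ℕ) : Family q S E where
  φ m α := kdim ((q : E) ^ m * α) s
  ψ m α := kdim ((q : E) ^ m * α) 1
  hφ _ _ := additive_kdim _ _
  hψ _ _ := additive_kdim _ _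
  tφ a m _ _ _ h := by
    rw [kdim_twist hq h, ← mul_assoc, ← zpow_add₀ hq, add_comm]
  tψ a m _ _ _ h := by
    rw [kdim_twist hq h, ← mul_assoc, ← zpow_add₀ hq, add_comm]

/-- all eigenvalues together -/
noncomputable def famTot (hq : (q : E) ≠ 0) (S : Set E) (hS : Stable q S) : Family q Unit E where
  φ _ _ := mult S
  ψ _ _ := blocks S
  hφ _ _ := additive_mult S
  hψ _ _ := additive_blocks S
  tφ _ _ _ _ _ h := mult_twist hq hS h
  tψ _ _ _ _ _ h := blocks_twist hq hS h

lemma exists_fin (w : ℤ) : ∃ (m : ℤ) (c : Fin 2), ((c : ℕ) : ℤ) + 2 * m = w :=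
  ⟨w / 2, ⟨(w % 2).toNat, by omega⟩, by
    change (((w % 2).toNat : ℕ) : ℤ) + 2 * (w / 2) = w
    omega⟩

lemma agree_tot (hq : (q : E) ≠ 0) {S : Set E} (hS : Stable q S) (X : Sch k) :
    Agree T (famTot hq S hS) X ↔ ∀ w, chi T (mult S) w X = chi T (blocks S) w X := by
  constructor
  · intro h w
    obtain ⟨m, c, hw⟩ := exists_fin w
    have h1 := h m () c
    rw [hw] at h1
    exact h1
  · intro h m i c
    exact h _

lemma agree_ker (hq : (q : E) ≠ 0) {S : Set E} (hS : Stable q S) (s : ℕ) (X : Sch k) :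
    Agree T (famKer hq S s) X ↔
      ∀ w, ∀ α ∈ S, chi T (kdim α s) w X = chi T (kdim α 1) w X := by
  constructor
  · intro h w α hα
    obtain ⟨m, c, hw⟩ := exists_fin w
    have h1 : chi T (kdim ((q : E) ^ m * ((q : E) ^ (-m) * α)) s) ((c : ℕ) + 2 * m) X =
        chi T (kdim ((q : E) ^ m * ((q : E) ^ (-m) * α)) 1) ((c : ℕ) + 2 * m) X :=
      h m ⟨(q : E) ^ (-m) * α, hS α hα _⟩ c
    have h3 : (q : E) ^ m * ((q : E) ^ (-m) * α) = α := by
      rw [← mul_assoc, ← zpow_add₀ hq, add_neg_cancel, zpow_zero, one_mul]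
    rwa [hw, h3] at h1
  · intro h m α c
    exact h _ _ (hS _ α.2 m)

/-- The dimension of `V`. -/
noncomputable def dimF (V : FMod E) : ℤ := Module.finrank E V

lemma mult_univ [IsAlgClosed E] {V : FMod E} (hV : Module.Finite E V) :
    mult Set.univ V = dimF V := by
  have h1 : genF Set.univ V = ⊤ := by
    rw [eq_top_iff, ← Module.End.iSup_maxGenEigenspace_eq_top (frobF V)]
    refine iSup_le fun α => ?_
    intro v hv
    rw [Module.End.mem_maxGenEigenspace] at hv
    obtain ⟨n, hn⟩ := hv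
    have h2 : ∀ (n : ℕ) (v : V), ((frobF V - α • 1) ^ n) v = shiftF α ^ n • v := by
      intro n
      induction n with
      | zero => intro v; simp
      | succ n ih =>
        intro v
        rw [pow_succ, Module.End.mul_apply, ih, pow_succ, mul_smul]
        congr 1
        rw [shiftF, sub_smul]
        rfl
    have h3 : v ∈ kerF α n V := by
      rw [mem_kerF, ← h2]
      exact hn
    have h4 : kerF α n V ≤ genF Set.univ V :=
      le_trans (le_iSup (fun s : ℕ => kerF α s V) n)
        (le_iSup (fun α : (Set.univ : Set E) => ⨆ s : ℕ, kerF (α : E) s V) ⟨α, trivial⟩)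
    exact h4 h3
  rw [mult, dimF, h1, finrank_top]

lemma noBlock_terms (hT : IsComplexes T H q) {S : Set E}
    (h : ∀ Y : Sch k, SmoothProj Y → ∀ w, NoBlock S (H w Y)) {X : Sch k} (hX : FT True X) (w j : ℤ) :
    NoBlock S (T w j X) := by
  obtain ⟨Y, hY, i, r, hir⟩ := hT.factor X hX w j
  have : Mono i := mono_of_mono_fac hir
  exact noBlock_mono i this (h Y hY w)

lemma chi_congr {φ ψ : FMod E → ℤ} {X : Sch k} {w : ℤ} (h : ∀ j, φ (T w j X) = ψ (T w j X)) :
    chi T φ w X = chi T ψ w X := by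
  rw [chi, chi]
  exact finsum_congr fun j => by rw [h j]

/-- The equivalences for a fixed theory. -/
theorem tfae_graphs (hk : Frac k) (hT : IsComplexes T H q) (hq : (q : E) ≠ 0) {S : Set E}
    (hS : Stable q S) {s : ℕ} (hs : 2 ≤ s) :
    List.TFAE [
      ∀ Y : Sch k, SmoothProj Y → ∀ w, NoBlock S (H w Y),
      ∀ X : Sch k, FT True X → ∀ w : ℤ, chi T (mult S) w X = chi T (blocks S) w X ∧
        ∀ α ∈ S, ∀ t : ℕ, 1 ≤ t → chi T (kdim α t) w X = chi T (kdim α 1) w X,
      ∀ (n : ℕ) (G : SimpleGraph (Fin n)) (w : ℤ),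
        chi T (mult S) w (kirS k G) = chi T (blocks S) w (kirS k G),
      ∀ (n : ℕ) (G : SimpleGraph (Fin n)) (w : ℤ), ∀ α ∈ S,
        chi T (kdim α s) w (kirS k G) = chi T (kdim α 1) w (kirS k G)] := by
  tfae_have 1 → 2 := fun h1 X hX w =>
    ⟨chi_congr fun j => mult_eq (noBlock_terms hT h1 hX w j), fun α hα t ht =>
      chi_congr fun j => kdim_eq (noBlock_terms hT h1 hX w j) hα ht⟩
  tfae_have 2 → 3 := fun h1 n G w => (h1 _ (ft_kirS G True) w).1
  tfae_have 2 → 4 := fun h1 n G w α hα => (h1 _ (ft_kirS G True) w).2 α hα s (by omega)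
  tfae_have 3 → 1 := fun h1 Y hY w => by
    have h2 := (agree_tot hq hS Y).mp
      (agree_universal hk hT (famTot hq S hS) (fun n G => (agree_tot hq hS _).mpr (h1 n G)) Y hY.ft) w
    rw [chi_smooth hT (additive_mult S) hY, chi_smooth hT (additive_blocks S) hY] at h2
    exact noBlock_of_mult (finite_smooth hT hY w) h2
  tfae_have 4 → 1 := fun h1 Y hY w α hα v hv => by
    have h2 := (agree_ker hq hS s Y).mp
      (agree_universal hk hT (famKer hq S s) (fun n G => (agree_ker hq hS s _).mpr (h1 n G)) Y hY.ft)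
      w α hα
    rw [chi_smooth hT (additive_kdim α s) hY, chi_smooth hT (additive_kdim α 1) hY] at h2
    exact noBlock_of_kdim (finite_smooth hT hY w) hs h2 hv
  tfae_finish

end

end Pool.Agent.H26.FS
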